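import Pool.Agent.H947R3.Sup
import Pool.Agent.H947R3.Conv
import Pool.Agent.Y520.AR.Stm

/-!
# Extremal solutions of singular problems with advection: statements of the parts

`E n`, `bv i`, `pd u i x` are those of `Pool.Agent.H947R3.Basic`, `Adm`, `cmp` those of
`Pool.Agent.H947R3.Stab`, `NL` that of `Pool.Agent.H947R3.Ned`, `LL` that of
`Pool.Agent.H947R3.Lev2`, `QQ` (closed cube) that of `Pool.Agent.H947R3.Grad`, `Drift` and `dv`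
(divergence), `S_DIVG`, `S_STAB` those of `Pool.Agent.Y520.AR.Stm` (`S_DIVG`, `S_STAB` are proved
in `Pool.Agent.Y534.AR.Divg`).
-/

set_option autoImplicit false

open MeasureTheory Set Filter Topology Laplacian InnerProductSpace

namespace Pool.Agent.Y520.AS

open Pool.Agent.H947R3 Pool.Agent.Y520.AR

/-- stability with advection -/
def StabD {n : ℕ} (Ω : Set (E n)) (B : ℝ) (V : E n → ℝ) : Prop :=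
  ∀ φ : E n → ℝ, ContDiff ℝ 1 φ → HasCompactSupport φ → tsupport φ ⊆ Ω →
    ∫ x, V x * φ x ^ 2 ≤ (∫ x, ∑ i, (pd φ i x) ^ 2) + (B ^ 2 / 4 + n * B / 2) * ∫ x, φ x ^ 2

/-- **DRE** -/
def S_DRE : Prop := ∀ (n : ℕ) (Ω : Set (E n)) (c : E n → E n) (B ε : ℝ) (u : E n → ℝ)
  (Θ Ψ : ℝ → ℝ), Drift Ω c B → Adm Ω u → 0 < ε → (∀ t, 0 < t → t < ε → Θ t = 0) →
  (∀ t ∈ Ioo (0 : ℝ) 1, HasDerivAt Θ (Ψ t) t) → ContinuousOn Ψ (Ioo 0 1) →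
  (∀ t ∈ Ioo (0 : ℝ) 1, 0 ≤ Θ t) →
  IntegrableOn (fun x => Θ (u x)) Ω ∧
  IntegrableOn (fun x => fderiv ℝ u x (c x) * Ψ (u x)) Ω ∧
  - ∫ x in Ω, fderiv ℝ u x (c x) * Ψ (u x) ≤ n * B * ∫ x in Ω, Θ (u x)

/-- **TEST** -/
def S_TEST : Prop := ∀ (f d : ℝ → ℝ) (C : ℝ), NL f d → 0 ≤ C →
  ∃ (Φ Ψ Θ k : ℝ → ℝ) (B₀ : ℝ), 0 ≤ B₀ ∧
    (∀ t ∈ Ioo (0 : ℝ) 1, HasDerivAt Φ (k t) t) ∧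
    (∀ t ∈ Ioo (0 : ℝ) 1, HasDerivAt Ψ ((k t) ^ 2) t) ∧
    (∀ t ∈ Ioo (0 : ℝ) 1, HasDerivAt Θ (Ψ t) t) ∧
    ContinuousOn k (Ioo 0 1) ∧
    (∀ t, 0 < t → t < 1 / 4 → Φ t = 0 ∧ Ψ t = 0 ∧ Θ t = 0) ∧
    (∀ t ∈ Ioo (0 : ℝ) 1, 0 ≤ Φ t ∧ 0 ≤ Ψ t ∧ 0 ≤ Θ t) ∧
    MonotoneOn Φ (Ioo 0 1) ∧ (∀ M : ℝ, ∃ t ∈ Ioo (0 : ℝ) 1, M ≤ Φ t) ∧
    ∀ t ∈ Ioo (0 : ℝ) 1,
      d t * Φ t ≤ d t * Φ t ^ 2 - f t * Ψ t - C * (Φ t ^ 2 + Θ t) + B₀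

/-- **NED** -/
def S_NED : Prop := ∀ (n : ℕ) (Ω : Set (E n)) (c : E n → E n) (B : ℝ) (u : E n → ℝ)
  (f d : ℝ → ℝ) (l C : ℝ) (Φ Ψ Θ k : ℝ → ℝ) (B₀ : ℝ),
  Drift Ω c B → Adm Ω u → NL f d → 0 < l →
  (∀ x ∈ Ω, -(Δ u x) + fderiv ℝ u x (c x) = l * f (u x)) →
  StabD Ω B (fun x => l * d (u x)) →
  (∀ t ∈ Ioo (0 : ℝ) 1, HasDerivAt Φ (k t) t) →
  (∀ t ∈ Ioo (0 : ℝ) 1, HasDerivAt Ψ ((k t) ^ 2) t) →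
  (∀ t ∈ Ioo (0 : ℝ) 1, HasDerivAt Θ (Ψ t) t) →
  ContinuousOn k (Ioo 0 1) →
  (∀ t, 0 < t → t < 1 / 4 → Φ t = 0 ∧ Ψ t = 0 ∧ Θ t = 0) →
  (∀ t ∈ Ioo (0 : ℝ) 1, 0 ≤ Φ t ∧ 0 ≤ Ψ t ∧ 0 ≤ Θ t) →
  (∀ t ∈ Ioo (0 : ℝ) 1,
      d t * Φ t ≤ d t * Φ t ^ 2 - f t * Ψ t - C * (Φ t ^ 2 + Θ t) + B₀) →
  n * B + B ^ 2 ≤ l * C →
  IntegrableOn (fun x => d (u x) * Φ (u x)) Ω ∧
  ∫ x in Ω, d (u x) * Φ (u x) ≤ B₀ * volume.real Ω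

/-- **LEV** -/
def S_LEV : Prop := ∀ (C : ℝ), 0 ≤ C → (∀ T : E 2 → ℝ, ContDiff ℝ 1 T → HasCompactSupport T →
    ∫ x, T x ^ 2 ≤ C * (∫ x, ‖fderiv ℝ T x‖) ^ 2) →
  ∀ (Ω : Set (E 2)) (c : E 2 → E 2) (B : ℝ) (u g : E 2 → ℝ) (G t r : ℝ),
    Drift Ω c B → Adm Ω u → 0 ≤ G →
    (∀ x ∈ Ω, -(Δ u x) + fderiv ℝ u x (c x) = g x) → ContinuousOn g Ω →
    (∀ x ∈ Ω, g x ≤ G) → 0 < t → 0 < r →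
    r * volume.real (LL Ω u (t + r)) ≤
      (3 / 2 * C * (G + 2 * B)) * volume.real (LL Ω u t) *
        (volume.real (LL Ω u t) - volume.real (LL Ω u (t + r)))

/-- **SUP** -/
def S_SUP : Prop := ∀ (f d : ℝ → ℝ) (Ω : Set (E 2)) (c : E 2 → E 2) (B ls : ℝ), NL f d →
  Drift Ω c B → 0 < ls → ∃ m0 ∈ Ioo (0 : ℝ) 1, ∀ l, ls / 2 ≤ l → l ≤ ls →
    ∀ u : E 2 → ℝ, Adm Ω u → (∀ x ∈ Ω, -(Δ u x) + fderiv ℝ u x (c x) = l * f (u x)) →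
    StabD Ω B (fun x => l * d (u x)) → ∀ x ∈ Ω, u x ≤ m0

/-- **GRAD** -/
def S_GRAD : Prop := ∀ (n : ℕ) (B R : ℝ), 0 ≤ B → 0 < R → ∃ C : ℝ, 0 ≤ C ∧
  ∀ (U : Set (E n)) (w : E n → ℝ) (c : E n → E n) (x₀ : E n) (M N : ℝ),
    IsOpen U → ContDiffOn ℝ 2 w U → QQ x₀ R ⊆ U → (∀ x ∈ QQ x₀ R, ‖c x‖ ≤ B) →
    (∀ x ∈ QQ x₀ R, |w x| ≤ M) →
    (∀ x ∈ QQ x₀ R, |-(Δ w x) + fderiv ℝ w x (c x)| ≤ N) →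
    ∀ x ∈ QQ x₀ (R / 2), ∀ i, |pd w i x| ≤ C * (M + N)

/-- **HESS** -/
def S_HESS : Prop := ∀ (n : ℕ) (B R : ℝ), 0 ≤ B → 0 < R → ∃ C : ℝ, 0 ≤ C ∧
  ∀ (U : Set (E n)) (w G : E n → ℝ) (c : E n → E n) (x₀ : E n) (M N : ℝ),
    IsOpen U → ContDiffOn ℝ 2 w U → ContDiffOn ℝ 1 c U → ContDiffOn ℝ 1 G U →
    QQ x₀ (2 * R) ⊆ U → (∀ x ∈ QQ x₀ (2 * R), ‖c x‖ ≤ B ∧ ‖fderiv ℝ c x‖ ≤ B) →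
    (∀ x ∈ U, -(Δ w x) + fderiv ℝ w x (c x) = G x) →
    (∀ x ∈ QQ x₀ (2 * R), ∀ k, |pd w k x| ≤ M) →
    (∀ x ∈ QQ x₀ (2 * R), ∀ k, |pd G k x| ≤ N) →
    ∀ x ∈ QQ x₀ (R / 2), ∀ i j, |pd (pd w i) j x| ≤ C * (M + N)

/-- **CONV** -/
def S_CONV : Prop := ∀ (n : ℕ) (f d : ℝ → ℝ) (Ω : Set (E n)) (c : E n → E n) (B ls m0 : ℝ)
  (l : ℕ → ℝ) (u : ℕ → E n → ℝ) (U : E n → ℝ), NL f d → Drift Ω c B → 0 < ls →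
  m0 ∈ Ioo (0 : ℝ) 1 → (∀ k, Adm Ω (u k)) → (∀ k, 0 < l k) → (∀ k, l k ≤ ls) →
  Tendsto l atTop (𝓝 ls) →
  (∀ k, ∀ x ∈ Ω, -(Δ (u k) x) + fderiv ℝ (u k) x (c x) = l k * f (u k x)) →
  (∀ k, ∀ x ∈ Ω, u k x ≤ m0) → (∀ x ∈ Ω, Monotone (fun k => u k x)) →
  (∀ x ∈ Ω, Tendsto (fun k => u k x) atTop (𝓝 (U x))) → ∀ x₀ ∈ Ω,
  ∃ s : Set (E n), IsOpen s ∧ x₀ ∈ s ∧ s ⊆ Ω ∧ ContDiffOn ℝ 2 U s ∧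
    (∀ x ∈ s, Tendsto (fun k => Δ (u k) x) atTop (𝓝 (Δ U x))) ∧
    ∀ x ∈ s, Tendsto (fun k => fderiv ℝ (u k) x (c x)) atTop (𝓝 (fderiv ℝ U x (c x)))

end Pool.Agent.Y520.AS
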